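import Pool.Agent.Helper38.IA.St

/-! Project IA, module M5 of helper38: degrees in the graph of the unused edges. -/

set_option autoImplicit false

namespace Pool.Agent.Helper67.IA38

open Finset Pool.Agent.Helper93.IA Pool.Agent.Helper38.IA

private theorem notMem_Fr {X Y ι : Type} [DecidableEq X] [DecidableEq Y] [DecidableEq ι]
    {H : Finset (X × Y)} {P : ι → Finset X} {M : ι → X → Y} {S : Finset ι} {x : X} {y : Y}
    (h : (x, y) ∉ Fr H P M S) : (x, y) ∉ H ∨ ∃ j ∈ S, x ∈ P j ∧ M j x = y := by
  by_contra hcon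
  rw [not_or, not_not] at hcon
  apply h
  unfold Fr
  rw [mem_filter]
  refine ⟨hcon.1, fun j hj hc => hcon.2 ⟨j, hj, hc⟩⟩

theorem hM5 : StM5 := by
  intro X Y ι _ _ _ H P Q M S i0 t hinj
  constructor
  · intro x hx ht
    have hsub : ((Q i0).filter fun y => (x, y) ∉ Fr H P M S) ⊆
        ((Q i0).filter fun y => (x, y) ∉ H) ∪
          (S.filter fun j => x ∈ P j ∧ M j x ∈ Q i0).image (fun j => M j x) := by
      intro y hy
      rw [mem_filter] at hy
      rw [mem_union, mem_filter, mem_image]
      rcases notMem_Fr hy.2 with h | ⟨j, hj, h1, h2⟩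
      · exact Or.inl ⟨hy.1, h⟩
      · refine Or.inr ⟨j, ?_, h2⟩
        rw [mem_filter]
        exact ⟨hj, h1, by rw [h2]; exact hy.1⟩
    refine (card_le_card hsub).trans ((card_union_le _ _).trans (Nat.add_le_add ht ?_))
    exact card_image_le
  · intro y hy ht
    have hsub : ((P i0).filter fun x => (x, y) ∉ Fr H P M S) ⊆
        ((P i0).filter fun x => (x, y) ∉ H) ∪
          (S.filter fun j => ∃ x ∈ P j, x ∈ P i0 ∧ M j x = y).biUnion
            (fun j => (P i0).filter fun x => x ∈ P j ∧ M j x = y) := by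
      intro x hx
      rw [mem_filter] at hx
      rw [mem_union, mem_filter, mem_biUnion]
      rcases notMem_Fr hx.2 with h | ⟨j, hj, h1, h2⟩
      · exact Or.inl ⟨hx.1, h⟩
      · refine Or.inr ⟨j, ?_, ?_⟩
        · rw [mem_filter]
          exact ⟨hj, x, h1, hx.1, h2⟩
        · rw [mem_filter]
          exact ⟨hx.1, h1, h2⟩
    refine (card_le_card hsub).trans ((card_union_le _ _).trans (Nat.add_le_add ht ?_))
    have h1 := card_biUnion_le_card_mul (S.filter fun j => ∃ x ∈ P j, x ∈ P i0 ∧ M j x = y)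
      (fun j => (P i0).filter fun x => x ∈ P j ∧ M j x = y) 1 (by
        intro j hj
        rw [mem_filter] at hj
        rw [card_le_one]
        intro a ha b hb
        rw [mem_filter] at ha hb
        exact hinj j hj.1 ha.2.1 hb.2.1 (ha.2.2.trans hb.2.2.symm))
    rw [mul_one] at h1
    exact h1

end Pool.Agent.Helper67.IA38
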